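import Pool.Agent.D0H92.QC.Prod

set_option autoImplicit false

/-!
# Members of digit families in a residue class to a large modulus
-/

namespace Pool.Agent.D0H92.LE

open Finset Pool.Agent.D0H92.AG Pool.Agent.D0H92.RG Pool.Agent.D0H92.QC

lemma fr_frac {B M q : ℕ} (hq : 1 ≤ q) (hBM : B ∣ M) (hcop : Nat.Coprime q M) (e : ℤ) (he : ¬ (q : ℤ) ∣ e) :
    Fr B q ((M : ℝ) * ((e : ℝ) / q)) := by
  refine ⟨q, hq, le_rfl, hcop.coprime_dvd_right hBM, M * e, by push_cast; ring, ?_⟩
  intro h
  have h1 : IsCoprime (q : ℤ) (M : ℤ) := Nat.isCoprime_iff_coprime.2 hcop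
  exact he (h1.dvd_of_dvd_mul_left h)

/-- the number of the members in one class -/
theorem class_count (c : ℤ) (g B : ℕ) (hB : 2 ≤ B) {N : ℕ} (A : Fin N → Finset ℕ)
    (hA : ∀ j, ∀ a ∈ A j, a < B) (h2 : ∀ j, 2 ≤ (A j).card) (K : ℕ) (hK : 1 ≤ K)
    (hx : 2 * B * lamB B ^ K ≤ 1 / 100) (q : ℕ) (hq : 1 ≤ q) (hcop : Nat.Coprime q (g * B.factorial))
    (hN : K * (Nat.log B q + 1) ≤ N) (r : ℤ) :
    (((Fintype.piFinset A).filter fun d => (q : ℤ) ∣ RG.val c g B d - r).card : ℝ) ≤
      (Fintype.piFinset A).card * (2 * (q : ℝ) ^ (-(3 / 4) : ℝ)) := by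
  classical
  set F := Fintype.piFinset A with hF
  have hq0 : (0 : ℝ) < q := by exact_mod_cast hq
  have hBM : B ∣ g * B.factorial := (Nat.dvd_factorial (by omega) le_rfl).mul_left g
  have hl := lamB_nonneg B hB
  have hl1 := (lamB_lt_one B hB).le
  have e1 : ((q : ℂ)) * ((F.filter fun d => (q : ℤ) ∣ RG.val c g B d - r).card : ℂ) =
      ∑ h ∈ range q, ee (-((h : ℝ) / q) * r) * ∑ d ∈ F, ee (((h : ℝ) / q) * RG.val c g B d) := by
    have h3 : ((q : ℂ)) * ((F.filter fun d => (q : ℤ) ∣ RG.val c g B d - r).card : ℂ) =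
        ∑ d ∈ F, if (q : ℤ) ∣ RG.val c g B d - r then (q : ℂ) else 0 := by
      rw [← sum_filter, sum_const, nsmul_eq_mul, mul_comm]
    rw [h3]
    have h4 : ∀ d ∈ F, (if (q : ℤ) ∣ RG.val c g B d - r then (q : ℂ) else 0) =
        ∑ h ∈ range q, ee (-((h : ℝ) / q) * r) * ee (((h : ℝ) / q) * RG.val c g B d) := by
      intro d _
      rw [← orth q hq]
      refine sum_congr rfl fun h _ => ?_
      rw [← ee_add]
      congr 1
      push_cast
      ring
    rw [sum_congr rfl h4, sum_comm]
    refine sum_congr rfl fun h _ => ?_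
    rw [mul_sum]
  have e2 : (q : ℝ) * ((F.filter fun d => (q : ℤ) ∣ RG.val c g B d - r).card : ℝ) ≤
      ∑ h ∈ range q, ‖∑ d ∈ F, ee (((h : ℝ) / q) * RG.val c g B d)‖ := by
    have h3 := congrArg norm e1
    rw [norm_mul, Complex.norm_natCast, Complex.norm_natCast] at h3
    rw [h3]
    refine (norm_sum_le _ _).trans (sum_le_sum fun h _ => ?_)
    rw [norm_mul, ee_norm, one_mul]
  have e3 : ∑ h ∈ range q, ‖∑ d ∈ F, ee (((h : ℝ) / q) * RG.val c g B d)‖ ≤ F.card * (1 + (q : ℝ) ^ (1 / 4 : ℝ)) := by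
    have h0 : range q = insert 0 (Ico 1 q) := by
      ext x; simp only [mem_range, mem_insert, mem_Ico]; omega
    rw [h0, sum_insert (by simp)]
    have h3 : ‖∑ d ∈ F, ee ((((0 : ℕ) : ℝ) / q) * RG.val c g B d)‖ ≤ F.card := by
      refine (norm_sum_le _ _).trans (le_of_eq ?_)
      simp [ee_norm]
    have h4 : ∑ h ∈ Ico 1 q, ‖∑ d ∈ F, ee (((h : ℝ) / q) * RG.val c g B d)‖ ≤ F.card * (q : ℝ) ^ (1 / 4 : ℝ) := by
      calc ∑ h ∈ Ico 1 q, ‖∑ d ∈ F, ee (((h : ℝ) / q) * RG.val c g B d)‖
          ≤ ∑ h ∈ Ico 1 q, (F.card : ℝ) * bk B (lamB B) N (((g * B.factorial : ℕ) : ℝ) * ((h : ℝ) / q)) :=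
            sum_le_sum fun h _ => norm_sum c g B hB A hA h2 _
        _ = F.card * ∑ h ∈ Ico 1 q, bk B (lamB B) N (((g * B.factorial : ℕ) : ℝ) * ((h : ℝ) / q)) := by rw [mul_sum]
        _ ≤ F.card * (q : ℝ) ^ (1 / 4 : ℝ) := by
            apply mul_le_mul_of_nonneg_left _ (Nat.cast_nonneg _)
            rcases Nat.lt_or_ge q 2 with hq2 | hq2
            · have : q = 1 := by omega
              subst this
              simp
            have h5 := sum_bk B hB hl hl1 (Ico 1 q) (fun h : ℕ => ((g * B.factorial : ℕ) : ℝ) * ((h : ℝ) / q)) q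
              (fun h hh => by
                have h6 := fr_frac hq hBM hcop (h : ℤ) (by
                  intro h7
                  rw [Int.natCast_dvd_natCast] at h7
                  have h8 := mem_Ico.1 hh
                  have := Nat.le_of_dvd h8.1 h7
                  omega)
                simpa using h6)
              (fun h hh h' hh' hne => by
                have h6 := fr_frac hq hBM hcop ((h : ℤ) - h') (by
                  rintro ⟨k, hk⟩
                  have h8 := mem_Ico.1 hh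
                  have h9 := mem_Ico.1 hh'
                  have hk0 : k = 0 := by
                    by_contra hk0
                    have h10 : (q : ℤ) ≤ |(h : ℤ) - h'| := by
                      rw [hk, abs_mul, Nat.abs_cast]
                      exact le_mul_of_one_le_right (by positivity) (Int.one_le_abs hk0)
                    have h11 : |(h : ℤ) - h'| < q := by
                      rw [abs_lt]; constructor <;> omega
                    omega
                  rw [hk0, mul_zero] at hk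
                  apply hne
                  omega)
                have e : ((g * B.factorial : ℕ) : ℝ) * ((h : ℝ) / q) - ((g * B.factorial : ℕ) : ℝ) * ((h' : ℝ) / q) =
                    ((g * B.factorial : ℕ) : ℝ) * ((((h : ℤ) - h' : ℤ) : ℝ) / q) := by
                  push_cast
                  ring
                rw [e]
                exact h6)
              (Nat.log B q + 1) K N (by exact_mod_cast Nat.lt_pow_succ_log_self (by omega) q) hK hN
            exact h5.trans (num_quarter hB hq2 (by positivity) hx)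
    linarith
  have e4 := e2.trans e3
  have hr : (1 : ℝ) ≤ (q : ℝ) ^ (1 / 4 : ℝ) := Real.one_le_rpow (by exact_mod_cast hq) (by norm_num)
  have e5 : (q : ℝ) * ((F.filter fun d => (q : ℤ) ∣ RG.val c g B d - r).card : ℝ) ≤ q * (F.card * (2 * (q : ℝ) ^ (-(3 / 4) : ℝ))) := by
    refine e4.trans ?_
    have h3 : (q : ℝ) * (q : ℝ) ^ (-(3 / 4) : ℝ) = (q : ℝ) ^ (1 / 4 : ℝ) := by
      nth_rewrite 1 [← Real.rpow_one (q : ℝ)]
      rw [← Real.rpow_add hq0]
      norm_num
    calc (F.card : ℝ) * (1 + (q : ℝ) ^ (1 / 4 : ℝ)) ≤ F.card * (2 * (q : ℝ) ^ (1 / 4 : ℝ)) :=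
          mul_le_mul_of_nonneg_left (by linarith) (Nat.cast_nonneg _)
      _ = q * (F.card * (2 * (q : ℝ) ^ (-(3 / 4) : ℝ))) := by rw [← h3]; ring
  exact le_of_mul_le_mul_left e5 hq0

end Pool.Agent.D0H92.LE
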