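import Mathlib

set_option autoImplicit false

/-!
# The part of an integer which is prime to a finite set of primes
-/

namespace Pool.Agent.D0H92.LE

open Finset

/-- the largest divisor without prime factors in `P` -/
noncomputable def fr (P : Finset ℕ) (n : ℕ) : ℕ := n.factorization.prod fun p e => if p ∈ P then 1 else p ^ e

/-- the largest divisor with all prime factors in `P` -/
noncomputable def sm (P : Finset ℕ) (n : ℕ) : ℕ := n.factorization.prod fun p e => if p ∈ P then p ^ e else 1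

lemma fr_mul (P : Finset ℕ) {m n : ℕ} (hm : m ≠ 0) (hn : n ≠ 0) : fr P (m * n) = fr P m * fr P n := by
  unfold fr
  rw [Nat.factorization_mul hm hn]
  apply Finsupp.prod_add_index'
  · intro p; split_ifs <;> simp
  · intro p a b
    split_ifs
    · simp
    · rw [pow_add]

lemma sm_mul_fr (P : Finset ℕ) {n : ℕ} (hn : n ≠ 0) : sm P n * fr P n = n := by
  unfold sm fr
  rw [← Finsupp.prod_mul]
  conv_rhs => rw [← Nat.prod_factorization_pow_eq_self hn]
  refine Finsupp.prod_congr fun p _ => ?_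
  split_ifs <;> simp

lemma fr_pos (P : Finset ℕ) {n : ℕ} (hn : n ≠ 0) : 0 < fr P n := by
  apply Nat.pos_of_ne_zero
  intro h
  have := sm_mul_fr P hn
  rw [h, mul_zero] at this
  exact hn this.symm

lemma sm_pos (P : Finset ℕ) {n : ℕ} (hn : n ≠ 0) : 0 < sm P n := by
  apply Nat.pos_of_ne_zero
  intro h
  have := sm_mul_fr P hn
  rw [h, zero_mul] at this
  exact hn this.symm

lemma fr_dvd (P : Finset ℕ) {n : ℕ} (hn : n ≠ 0) : fr P n ∣ n := ⟨sm P n, by rw [mul_comm]; exact (sm_mul_fr P hn).symm⟩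

lemma fr_cop (P : Finset ℕ) (n : ℕ) {p : ℕ} (hp : p.Prime) (hpP : p ∈ P) : ¬ p ∣ fr P n := by
  intro h
  unfold fr Finsupp.prod at h
  obtain ⟨q, hq, hpq⟩ := (hp.prime.dvd_finsetProd_iff _).1 h
  dsimp only at hpq
  split_ifs at hpq with hqP
  · exact hp.one_lt.ne' (Nat.dvd_one.1 hpq)
  · have h1 := hp.dvd_of_dvd_pow hpq
    have hqp : q.Prime := Nat.prime_of_mem_primeFactors (Nat.support_factorization n ▸ hq)
    rw [(Nat.prime_dvd_prime_iff_eq hp hqp).1 h1] at hpP
    exact hqP hpP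

lemma sm_fac (P : Finset ℕ) {n : ℕ} (hn : n ≠ 0) : sm P n ∈ Nat.factoredNumbers P := by
  rw [Nat.mem_factoredNumbers']
  intro p hp h
  unfold sm Finsupp.prod at h
  obtain ⟨q, hq, hpq⟩ := (hp.prime.dvd_finsetProd_iff _).1 h
  dsimp only at hpq
  split_ifs at hpq with hqP
  · have h1 := hp.dvd_of_dvd_pow hpq
    have hqp : q.Prime := Nat.prime_of_mem_primeFactors (Nat.support_factorization n ▸ hq)
    rw [(Nat.prime_dvd_prime_iff_eq hp hqp).1 h1]
    exact hqP
  · exact absurd (Nat.dvd_one.1 hpq) hp.one_lt.ne'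

lemma fr_prime (P : Finset ℕ) {p : ℕ} (hp : p.Prime) (hpP : p ∉ P) : fr P p = p := by
  unfold fr
  rw [hp.factorization, Finsupp.prod_single_index]
  · rw [if_neg hpP, pow_one]
  · simp

lemma fr_one (P : Finset ℕ) : fr P 1 = 1 := by
  unfold fr
  simp

lemma fr_prod (P : Finset ℕ) (S : Finset ℕ) (f : ℕ → ℕ) (hf : ∀ p ∈ S, f p ≠ 0) :
    fr P (∏ p ∈ S, f p) = ∏ p ∈ S, fr P (f p) := by
  classical
  induction S using Finset.induction_on with
  | empty => simp [fr_one]
  | insert a S ha ih =>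
    rw [prod_insert ha, prod_insert ha, fr_mul P (hf a (mem_insert_self _ _))
      (prod_ne_zero_iff.2 fun p hp => hf p (mem_insert_of_mem hp)), ih fun p hp => hf p (mem_insert_of_mem hp)]

/-- the weight of a prime -/
noncomputable def w (P : Finset ℕ) (p : ℕ) : ℝ := (p : ℝ) ^ (1 / 8 : ℝ) * ((fr P p * fr P (p - 1) : ℕ) : ℝ) ^ (-(3 / 4) : ℝ)

lemma w_nonneg (P : Finset ℕ) (p : ℕ) : 0 ≤ w P p := by unfold w; positivity

/-- the powers `n ^ (-5/8)` as a homomorphism -/
noncomputable def hom58 : ℕ →* ℝ where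
  toFun n := (n : ℝ) ^ (-(5 / 8) : ℝ)
  map_one' := by simp
  map_mul' m n := by
    push_cast
    rw [Real.mul_rpow (Nat.cast_nonneg _) (Nat.cast_nonneg _)]

lemma hom58_apply (n : ℕ) : hom58 n = (n : ℝ) ^ (-(5 / 8) : ℝ) := rfl

lemma summable58 (P : Finset ℕ) : Summable (fun m : Nat.factoredNumbers P => (((m : ℕ) : ℝ)) ^ (-(5 / 8) : ℝ)) := by
  have h1 := (EulerProduct.summable_and_hasSum_factoredNumbers_prod_filter_prime_geometric (f := hom58) (by
      intro p hp
      have hp1 : (1 : ℝ) < p := by exact_mod_cast hp.one_lt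
      rw [hom58_apply, Real.norm_of_nonneg (by positivity)]
      exact Real.rpow_lt_one_of_one_lt_of_neg hp1 (by norm_num)) P).1
  refine (summable_congr fun m => ?_).1 h1
  rw [hom58_apply, Real.norm_of_nonneg (by positivity)]

lemma sum_w (P : Finset ℕ) : ∃ S₀ : ℝ, 0 ≤ S₀ ∧ ∀ Q : Finset ℕ, (∀ p ∈ Q, p.Prime) → ∑ p ∈ Q, w P p ≤ S₀ := by
  classical
  have h1 := summable58 P
  have h2 : Summable (fun t : ℕ => (t : ℝ) ^ (-(11 / 8) : ℝ)) := by
    rw [Real.summable_nat_rpow]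
    norm_num
  have h3 : Summable (fun x : Nat.factoredNumbers P × ℕ => (((x.1 : ℕ) : ℝ)) ^ (-(5 / 8) : ℝ) * (x.2 : ℝ) ^ (-(11 / 8) : ℝ)) :=
    h1.mul_of_nonneg h2 (fun _ => by positivity) (fun _ => by positivity)
  refine ⟨∑ p ∈ P, (p : ℝ) ^ (1 / 8 : ℝ) + ∑' x : Nat.factoredNumbers P × ℕ, (((x.1 : ℕ) : ℝ)) ^ (-(5 / 8) : ℝ) * (x.2 : ℝ) ^ (-(11 / 8) : ℝ), ?_, ?_⟩
  · have : 0 ≤ ∑' x : Nat.factoredNumbers P × ℕ, (((x.1 : ℕ) : ℝ)) ^ (-(5 / 8) : ℝ) * (x.2 : ℝ) ^ (-(11 / 8) : ℝ) :=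
      tsum_nonneg fun x => by positivity
    have h4 : 0 ≤ ∑ p ∈ P, (p : ℝ) ^ (1 / 8 : ℝ) := sum_nonneg fun p _ => by positivity
    linarith
  · intro Q hQ
    rw [← sum_filter_add_sum_filter_not Q (fun p => p ∈ P)]
    apply add_le_add
    · have h4 : ∀ p ∈ Q.filter (fun p => p ∈ P), w P p ≤ (p : ℝ) ^ (1 / 8 : ℝ) := by
        intro p hp
        have hpp := hQ p (mem_filter.1 hp).1
        unfold w
        have h5 : (1 : ℝ) ≤ ((fr P p * fr P (p - 1) : ℕ) : ℝ) := by
          have h6 : 0 < fr P p * fr P (p - 1) := Nat.mul_pos (fr_pos P hpp.ne_zero) (fr_pos P (by have := hpp.two_le; omega))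
          exact_mod_cast h6
        have h7 : ((fr P p * fr P (p - 1) : ℕ) : ℝ) ^ (-(3 / 4) : ℝ) ≤ 1 := Real.rpow_le_one_of_one_le_of_nonpos h5 (by norm_num)
        exact mul_le_of_le_one_right (by positivity) h7
      refine (sum_le_sum h4).trans (sum_le_sum_of_subset_of_nonneg ?_ (fun _ _ _ => by positivity))
      intro p hp
      exact (mem_filter.1 hp).2
    · have hfac : ∀ p : ℕ, sm P (if p.Prime then p - 1 else 1) ∈ Nat.factoredNumbers P := by
        intro p
        apply sm_fac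
        split_ifs with hp
        · have := hp.two_le; omega
        · norm_num
      set e : ℕ → Nat.factoredNumbers P × ℕ := fun p => (⟨sm P (if p.Prime then p - 1 else 1), hfac p⟩, fr P (p - 1)) with he
      have h4 : ∀ p ∈ Q.filter (fun p => ¬ p ∈ P), w P p ≤ ((((e p).1 : ℕ) : ℝ)) ^ (-(5 / 8) : ℝ) * ((e p).2 : ℝ) ^ (-(11 / 8) : ℝ) := by
        intro p hp
        rw [mem_filter] at hp
        have hpp := hQ p hp.1
        have hp1 : p - 1 ≠ 0 := by have := hpp.two_le; omega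
        have h5 := sm_mul_fr P hp1
        have hs := sm_pos P hp1
        have hf := fr_pos P hp1
        have hsR : (0 : ℝ) < sm P (p - 1) := by exact_mod_cast hs
        have hfR : (0 : ℝ) < fr P (p - 1) := by exact_mod_cast hf
        have hpR : (0 : ℝ) < p := by exact_mod_cast hpp.pos
        have h6 : ((sm P (p - 1) : ℕ) : ℝ) * fr P (p - 1) ≤ p := by
          have : sm P (p - 1) * fr P (p - 1) ≤ p := by omega
          exact_mod_cast this
        have h7 : (e p).1.1 = sm P (p - 1) := by rw [he]; simp only [if_pos hpp]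
        have h8 : (((e p).1 : ℕ) : ℝ) ^ (-(5 / 8) : ℝ) = ((sm P (p - 1) : ℕ) : ℝ) ^ (-(5 / 8) : ℝ) := by
          rw [h7]
        rw [h8]
        unfold w
        rw [fr_prime P hpp hp.2]
        push_cast
        rw [Real.mul_rpow hpR.le hfR.le, ← mul_assoc, ← Real.rpow_add hpR]
        have h9 : (p : ℝ) ^ (1 / 8 + -(3 / 4) : ℝ) ≤ (((sm P (p - 1) : ℕ) : ℝ) * fr P (p - 1)) ^ (1 / 8 + -(3 / 4) : ℝ) :=
          Real.rpow_le_rpow_of_nonpos (by positivity) h6 (by norm_num)
        calc (p : ℝ) ^ (1 / 8 + -(3 / 4) : ℝ) * (fr P (p - 1) : ℝ) ^ (-(3 / 4) : ℝ)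
            ≤ (((sm P (p - 1) : ℕ) : ℝ) * fr P (p - 1)) ^ (1 / 8 + -(3 / 4) : ℝ) * (fr P (p - 1) : ℝ) ^ (-(3 / 4) : ℝ) :=
              mul_le_mul_of_nonneg_right h9 (by positivity)
          _ = ((sm P (p - 1) : ℕ) : ℝ) ^ (-(5 / 8) : ℝ) * ((fr P (p - 1) : ℝ) ^ (-(5 / 8) : ℝ) * (fr P (p - 1) : ℝ) ^ (-(3 / 4) : ℝ)) := by
              rw [Real.mul_rpow hsR.le hfR.le]
              norm_num
              ring
          _ = ((sm P (p - 1) : ℕ) : ℝ) ^ (-(5 / 8) : ℝ) * (fr P (p - 1) : ℝ) ^ (-(11 / 8) : ℝ) := by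
              rw [← Real.rpow_add hfR]
              norm_num
      have hinj : Set.InjOn e (Q.filter (fun p => ¬ p ∈ P) : Set ℕ) := by
        intro p hp q hq hpq
        rw [mem_coe, mem_filter] at hp hq
        have hpp := hQ p hp.1
        have hqq := hQ q hq.1
        rw [he] at hpq
        simp only [if_pos hpp, if_pos hqq, Prod.mk.injEq, Subtype.mk.injEq] at hpq
        have hp1 : p - 1 ≠ 0 := by have := hpp.two_le; omega
        have hq1 : q - 1 ≠ 0 := by have := hqq.two_le; omega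
        have h5 := sm_mul_fr P hp1
        have h6 := sm_mul_fr P hq1
        rw [hpq.1, hpq.2, h6] at h5
        have := hpp.two_le
        have := hqq.two_le
        omega
      refine (sum_le_sum h4).trans ?_
      rw [← sum_image (f := fun x : Nat.factoredNumbers P × ℕ => (((x.1 : ℕ) : ℝ)) ^ (-(5 / 8) : ℝ) * (x.2 : ℝ) ^ (-(11 / 8) : ℝ)) hinj]
      exact h3.sum_le_tsum _ fun x _ => by positivity

/-- **Rankin's method.** -/
theorem rankin (P : Finset ℕ) : ∃ C₀ : ℝ, 1 ≤ C₀ ∧ ∀ (u : ℝ) (D : Finset ℕ), 0 < u → (∀ d ∈ D, Squarefree d ∧ u < (d : ℝ)) →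
    ∑ d ∈ D, ((fr P d * fr P d.totient : ℕ) : ℝ) ^ (-(3 / 4) : ℝ) ≤ C₀ * u ^ (-(1 / 8) : ℝ) := by
  classical
  obtain ⟨S₀, hS₀, h⟩ := sum_w P
  refine ⟨Real.exp S₀, Real.one_le_exp hS₀, ?_⟩
  intro u D hu hD
  set Q : Finset ℕ := D.biUnion fun d => d.primeFactors with hQ
  have hQp : ∀ p ∈ Q, p.Prime := by
    intro p hp
    rw [hQ, mem_biUnion] at hp
    obtain ⟨d, _, hp⟩ := hp
    exact Nat.prime_of_mem_primeFactors hp
  have h1 : ∀ d ∈ D, ((fr P d * fr P d.totient : ℕ) : ℝ) ^ (-(3 / 4) : ℝ) ≤ u ^ (-(1 / 8) : ℝ) * ∏ p ∈ d.primeFactors, w P p := by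
    intro d hd
    obtain ⟨hsf, hud⟩ := hD d hd
    have hd0 : (0 : ℝ) < d := hu.trans hud
    have hprod : ∏ p ∈ d.primeFactors, p = d := Nat.prod_primeFactors_of_squarefree hsf
    have htot : d.totient = ∏ p ∈ d.primeFactors, (p - 1) := by
      have h2 := Nat.totient_mul_prod_primeFactors d
      rw [hprod] at h2
      have hd0' : 0 < d := by exact_mod_cast hd0
      have h3 : d.totient * d = (∏ p ∈ d.primeFactors, (p - 1)) * d := by rw [h2]; ring
      exact Nat.eq_of_mul_eq_mul_right hd0' h3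
    have h2 : ∏ p ∈ d.primeFactors, w P p = (d : ℝ) ^ (1 / 8 : ℝ) * ((fr P d * fr P d.totient : ℕ) : ℝ) ^ (-(3 / 4) : ℝ) := by
      unfold w
      rw [prod_mul_distrib]
      congr 1
      · conv_rhs => rw [← hprod]
        push_cast
        rw [← Real.finsetProd_rpow _ _ (fun _ _ => Nat.cast_nonneg _)]
      · rw [Real.finsetProd_rpow _ _ (fun _ _ => Nat.cast_nonneg _)]
        congr 1
        rw [htot, fr_prod P _ _ (fun p hp => by
          have := (Nat.prime_of_mem_primeFactors hp).two_le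
          omega)]
        have h9 : fr P d = ∏ p ∈ d.primeFactors, fr P p := by
          conv_lhs => rw [← hprod]
          exact fr_prod P _ (fun p => p) (fun p hp => (Nat.prime_of_mem_primeFactors hp).ne_zero)
        rw [h9, ← prod_mul_distrib]
        push_cast
        rfl
    rw [h2, ← mul_assoc]
    have h3 : 1 ≤ u ^ (-(1 / 8) : ℝ) * (d : ℝ) ^ (1 / 8 : ℝ) := by
      rw [Real.rpow_neg hu.le, ← div_eq_inv_mul, one_le_div (by positivity)]
      exact Real.rpow_le_rpow hu.le hud.le (by norm_num)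
    exact le_mul_of_one_le_left (by positivity) h3
  calc ∑ d ∈ D, ((fr P d * fr P d.totient : ℕ) : ℝ) ^ (-(3 / 4) : ℝ)
      ≤ ∑ d ∈ D, u ^ (-(1 / 8) : ℝ) * ∏ p ∈ d.primeFactors, w P p := sum_le_sum h1
    _ = u ^ (-(1 / 8) : ℝ) * ∑ d ∈ D, ∏ p ∈ d.primeFactors, w P p := by rw [mul_sum]
    _ ≤ u ^ (-(1 / 8) : ℝ) * ∏ p ∈ Q, (1 + w P p) := by
        apply mul_le_mul_of_nonneg_left _ (by positivity)
        rw [prod_one_add]
        have hinj : Set.InjOn (fun d : ℕ => d.primeFactors) (D : Set ℕ) := by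
          intro d hd d' hd' hdd
          have h2 := Nat.prod_primeFactors_of_squarefree (hD d hd).1
          have h3 := Nat.prod_primeFactors_of_squarefree (hD d' hd').1
          simp only at hdd
          rw [← h2, ← h3, hdd]
        rw [← sum_image (f := fun S : Finset ℕ => ∏ p ∈ S, w P p) hinj]
        apply sum_le_sum_of_subset_of_nonneg
        · intro S hS
          rw [mem_image] at hS
          obtain ⟨d, hd, rfl⟩ := hS
          rw [mem_powerset, hQ]
          exact subset_biUnion_of_mem (fun d : ℕ => d.primeFactors) hd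
        · intro S _ _
          exact prod_nonneg fun p _ => w_nonneg P p
    _ ≤ u ^ (-(1 / 8) : ℝ) * Real.exp S₀ := by
        apply mul_le_mul_of_nonneg_left _ (by positivity)
        calc ∏ p ∈ Q, (1 + w P p) ≤ ∏ p ∈ Q, Real.exp (w P p) := by
              apply prod_le_prod (fun p _ => by have := w_nonneg P p; linarith)
              intro p _
              linarith [Real.add_one_le_exp (w P p)]
          _ = Real.exp (∑ p ∈ Q, w P p) := (Real.exp_sum _ _).symm
          _ ≤ Real.exp S₀ := Real.exp_le_exp.2 (h Q hQp)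
    _ = Real.exp S₀ * u ^ (-(1 / 8) : ℝ) := mul_comm _ _

end Pool.Agent.D0H92.LE
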