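import Pool.Agent.D0H92.LE.Cls
import Pool.Agent.D0H92.LE.Free
import Pool.Agent.D0H92.QC.Main
import Pool.Agent.D0H92.QC.Inj
import Pool.Agent.H95R2.Leh.FamLeh
import Pool.Agent.H95R2.Leh.DenseA

set_option autoImplicit false

/-!
# Lehmer's totient problem in digit families: power saving
-/

namespace Pool.Agent.D0H92.LE

open Finset Filter Pool.Agent.D0H92.AG Pool.Agent.D0H92.RG Pool.Agent.D0H92.QC
open Pool.Agent.H95R2.Leh (Leh leh_basic leh_k fam_leh dense StL)

lemma num_inj {c g : ℤ} (hg : g ≠ 0) {B : ℕ} (hB : 2 ≤ B) {N : ℕ} (A : Fin N → Finset ℕ) (hA : ∀ j, ∀ a ∈ A j, a < B) :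
    Set.InjOn (fun t : Fin N → ℕ => num c g B t) (Fintype.piFinset A : Set (Fin N → ℕ)) := by
  intro a ha b hb hab
  have h4 : (g : ℤ) * ∑ j : Fin N, (B : ℤ) ^ (j : ℕ) * a j = g * ∑ j : Fin N, (B : ℤ) ^ (j : ℕ) * b j := by
    simpa [QC.num] using hab
  have h5 := mul_left_cancel₀ hg h4
  have h6 : ∑ j : Fin N, B ^ (j : ℕ) * a j = ∑ j : Fin N, B ^ (j : ℕ) * b j := by exact_mod_cast h5
  rw [mem_coe, Fintype.mem_piFinset] at ha hb
  exact digits_inj B (by omega) a b (fun j => hA j _ (ha j)) (fun j => hA j _ (hb j)) h6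

open Classical in
/-- the Lehmer numbers with a given divisor -/
theorem div_count (B : ℕ) (hB : 2 ≤ B) {N : ℕ} (A : Fin N → Finset ℕ) (hA : ∀ j, ∀ a ∈ A j, a < B)
    (h2 : ∀ j, 2 ≤ (A j).card) (K : ℕ) (hK : 1 ≤ K) (hx : 2 * B * lamB B ^ K ≤ 1 / 100) (P : Finset ℕ)
    (hPB : ∀ p : ℕ, p.Prime → p ≤ B → p ∈ P) (c g : ℤ) (hg : g ≠ 0) (hPg : ∀ p : ℕ, p.Prime → (p : ℤ) ∣ g → p ∈ P)
    (d : ℕ) (hd : 1 ≤ d) (hN : K * (Nat.log B (d * d) + 1) ≤ N) :
    (((Fintype.piFinset A).filter fun t => Leh (num c g B t).toNat ∧ d ∣ (num c g B t).toNat).card : ℝ) ≤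
      if Squarefree d then (Fintype.piFinset A).card * (2 * ((fr P d * fr P d.totient : ℕ) : ℝ) ^ (-(3 / 4) : ℝ)) else 0 := by
  set F := Fintype.piFinset A with hF
  by_cases hemp : (F.filter fun t => Leh (num c g B t).toNat ∧ d ∣ (num c g B t).toNat) = ∅
  · rw [hemp, card_empty, Nat.cast_zero]
    split_ifs <;> positivity
  obtain ⟨t₀, ht₀⟩ := nonempty_iff_ne_empty.2 hemp
  obtain ⟨ht₀F, hl₀, hd₀⟩ := mem_filter.1 ht₀
  have hb₀ := leh_basic hl₀
  have hsf : Squarefree d := hb₀.1.squarefree_of_dvd hd₀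
  have hcop : Nat.Coprime d d.totient :=
    (hb₀.2.2.coprime_dvd_left hd₀).coprime_dvd_right (Nat.totient_dvd_of_dvd hd₀)
  rw [if_pos hsf]
  have hd0 : d ≠ 0 := by omega
  have ht0 : d.totient ≠ 0 := (Nat.totient_pos.2 (by omega)).ne'
  set q := fr P d * fr P d.totient with hq
  have hq1 : 1 ≤ q := Nat.mul_pos (fr_pos P hd0) (fr_pos P ht0)
  have hqd : q ≤ d * d := by
    apply Nat.mul_le_mul (Nat.le_of_dvd (by omega) (fr_dvd P hd0))
    exact (Nat.le_of_dvd (by omega) (fr_dvd P ht0)).trans (Nat.totient_le d)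
  have hqcop : Nat.Coprime q (g.natAbs * B.factorial) := by
    by_contra hnc
    obtain ⟨p, hp, hp1, hp2⟩ := Nat.Prime.not_coprime_iff_dvd.1 hnc
    have hpP : p ∈ P := by
      rcases (hp.dvd_mul).1 hp2 with h | h
      · exact hPg p hp (Int.natCast_dvd.2 h)
      · exact hPB p hp ((hp.dvd_factorial).1 h)
    rcases (hp.dvd_mul).1 hp1 with h | h
    · exact fr_cop P d hp hpP h
    · exact fr_cop P d.totient hp hpP h
  have hkey : ∀ t : Fin N → ℕ, Leh (num c g B t).toNat → d ∣ (num c g B t).toNat →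
      (d : ℤ) ∣ num c g B t ∧ ((d.totient : ℕ) : ℤ) ∣ num c g B t - 1 := by
    intro t hl hdt
    have h1 : (((num c g B t).toNat : ℕ) : ℤ) = num c g B t := by
      apply Int.toNat_of_nonneg
      have := hl.1
      omega
    have h3 : ((d.totient : ℕ) : ℤ) ∣ (((num c g B t).toNat - 1 : ℕ) : ℤ) :=
      Int.natCast_dvd_natCast.2 ((Nat.totient_dvd_of_dvd hdt).trans hl.2.2)
    rw [Nat.cast_sub hl.1.le, h1, Nat.cast_one] at h3
    refine ⟨?_, h3⟩
    rw [← h1]
    exact Int.natCast_dvd_natCast.2 hdt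
  have hk₀ := hkey t₀ hl₀ hd₀
  have hsub : (F.filter fun t => Leh (num c g B t).toNat ∧ d ∣ (num c g B t).toNat) ⊆
      F.filter fun t => (q : ℤ) ∣ RG.val (g.sign * c) g.natAbs B t - RG.val (g.sign * c) g.natAbs B t₀ := by
    intro t ht
    obtain ⟨htF, hl, hdt⟩ := mem_filter.1 ht
    refine mem_filter.2 ⟨htF, ?_⟩
    have hk := hkey t hl hdt
    have h1 : (d : ℤ) ∣ num c g B t - num c g B t₀ := hk.1.sub hk₀.1
    have h3 : ((d.totient : ℕ) : ℤ) ∣ num c g B t - num c g B t₀ := by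
      have := hk.2.sub hk₀.2
      have e : num c g B t - 1 - (num c g B t₀ - 1) = num c g B t - num c g B t₀ := by ring
      rwa [e] at this
    have h4 : ((fr P d : ℕ) : ℤ) ∣ num c g B t - num c g B t₀ := (Int.natCast_dvd_natCast.2 (fr_dvd P hd0)).trans h1
    have h5 : ((fr P d.totient : ℕ) : ℤ) ∣ num c g B t - num c g B t₀ := (Int.natCast_dvd_natCast.2 (fr_dvd P ht0)).trans h3
    have h6 : IsCoprime ((fr P d : ℕ) : ℤ) ((fr P d.totient : ℕ) : ℤ) :=
      Nat.isCoprime_iff_coprime.2 ((hcop.coprime_dvd_left (fr_dvd P hd0)).coprime_dvd_right (fr_dvd P ht0))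
    have h7 := h6.mul_dvd h4 h5
    have h8 : (q : ℤ) ∣ num c g B t - num c g B t₀ := by rw [hq]; push_cast; exact h7
    rw [num_eq (c := c) hg B t, num_eq (c := c) hg B t₀, ← mul_sub] at h8
    have h9 : g.sign * g.sign = 1 := by
      rcases sign_pm hg with h | h <;> rw [h] <;> norm_num
    have h10 := h8.mul_left g.sign
    rwa [← mul_assoc, h9, one_mul] at h10
  refine (Nat.cast_le.2 (card_le_card hsub)).trans ?_
  exact class_count (g.sign * c) g.natAbs B hB A hA h2 K hK hx q hq1 hqcop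
    (le_trans (Nat.mul_le_mul_left _ (Nat.succ_le_succ (Nat.log_mono_right hqd))) hN) _

/-- the choice of `K` -/
lemma exists_K (B : ℕ) (hB : 2 ≤ B) : ∃ K : ℕ, B ≤ K ∧ 1 ≤ K ∧ 2 * B * lamB B ^ K ≤ 1 / 100 := by
  have h1 := tendsto_pow_atTop_nhds_zero_of_lt_one (lamB_nonneg B hB) (lamB_lt_one B hB)
  have hB0 : (0 : ℝ) < B := by exact_mod_cast (by omega : 0 < B)
  have h2 := (h1.eventually_lt_const (show (0 : ℝ) < 1 / (200 * B) by positivity)).and (eventually_ge_atTop B)
  obtain ⟨K, hK1, hK2⟩ := h2.exists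
  refine ⟨K, hK2, by omega, ?_⟩
  calc 2 * B * lamB B ^ K ≤ 2 * B * (1 / (200 * B)) := mul_le_mul_of_nonneg_left hK1.le (by positivity)
    _ = 1 / 100 := by field_simp; norm_num

open Classical in
theorem lehmer_digits (B : ℕ) (hB : 2 ≤ B) (P₀ : Finset ℕ) :
    ∃ κ : ℝ, 0 < κ ∧ κ < 1 ∧ ∃ N₀ : ℕ, ∀ N : ℕ, N₀ ≤ N → ∀ A : Fin N → Finset ℕ, (∀ j, ∀ a ∈ A j, a < B) →
      (∀ j, 2 ≤ (A j).card) → ∀ (c g : ℤ), g ≠ 0 → (∀ p : ℕ, p.Prime → (p : ℤ) ∣ g → p ∈ P₀) →
      |(c : ℝ)| ≤ Real.exp (((Fintype.piFinset A).card : ℝ) ^ κ) → |(g : ℝ)| ≤ Real.exp (((Fintype.piFinset A).card : ℝ) ^ κ) →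
      (((Fintype.piFinset A).filter fun t => Leh (num c g B t).toNat).card : ℝ) ≤ ((Fintype.piFinset A).card : ℝ) ^ (1 - κ) := by
  obtain ⟨K, hKB, hK, hx⟩ := exists_K B hB
  set P := P₀ ∪ range (B + 1) with hP
  obtain ⟨C₀, hC₀, hrank⟩ := rankin P
  have hK0 : (0 : ℝ) < K := by exact_mod_cast hK
  have hK1 : (1 : ℝ) ≤ K := by exact_mod_cast hK
  have hB0 : (0 : ℝ) < B := by exact_mod_cast (by omega : 0 < B)
  have hB1 : (1 : ℝ) ≤ B := by exact_mod_cast (by omega : 1 ≤ B)
  have hlB : 0 ≤ Real.log B := Real.log_nonneg hB1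
  set κ : ℝ := 1 / (64 * K) with hκ
  have hκ0 : 0 < κ := by positivity
  have hκ1 : κ ≤ 1 / 64 := by
    rw [hκ]
    apply one_div_le_one_div_of_le (by norm_num)
    linarith
  -- the constant
  set C₁ : ℝ := 4 * C₀ * (32 * (2 + Real.log B) * B) with hC₁
  have hC₁0 : 0 < C₁ := by positivity
  have e1 : ∀ᶠ N : ℕ in atTop, C₁ * N ≤ Real.exp ((Real.log 2 / (128 * K)) * N) := by
    have hl2 : 0 < Real.log 2 := Real.log_pos (by norm_num)
    have h1 := (isLittleO_pow_exp_pos_mul_atTop 1 (show 0 < Real.log 2 / (128 * K) by positivity)).def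
      (show (0 : ℝ) < 1 / C₁ by positivity)
    have h2 := tendsto_natCast_atTop_atTop (R := ℝ) |>.eventually h1
    filter_upwards [h2] with N h3
    rw [pow_one, Real.norm_eq_abs, Real.norm_eq_abs, abs_of_nonneg (Nat.cast_nonneg _), abs_of_pos (Real.exp_pos _)] at h3
    rw [one_div_mul_eq_div, le_div_iff₀ hC₁0] at h3
    linarith
  obtain ⟨N₁, hN₁⟩ := eventually_atTop.1 e1
  refine ⟨κ, hκ0, by linarith, N₁ + 4 * K + 4, ?_⟩
  intro N hN A hA h2 c g hg hgP hcN hgN
  have hN2 := hN₁ N (by omega)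
  set F := Fintype.piFinset A with hF
  set M : ℝ := (F.card : ℝ) with hM
  have hN4 : (4 : ℝ) ≤ N := by exact_mod_cast (by omega : 4 ≤ N)
  have hN0 : (0 : ℝ) < N := by linarith
  have hMB : M ≤ (B : ℝ) ^ N := card_family B N A hA
  have hM2 : (2 : ℝ) ^ N ≤ M := card_family' N A h2
  have hM1 : 1 ≤ M := (one_le_pow₀ (by norm_num)).trans hM2
  have hM0 : 0 < M := by linarith
  have hMκ : 1 ≤ M ^ κ := Real.one_le_rpow hM1 hκ0.le
  -- parameters
  obtain ⟨L, hL⟩ : ∃ L, L = N / (4 * K) := ⟨_, rfl⟩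
  have hL1 : L * (4 * K) ≤ N := by rw [hL]; exact Nat.div_mul_le_self _ _
  have hL2 : N < (L + 1) * (4 * K) := by 
    rw [hL]
    have h3 := Nat.div_add_mod N (4 * K)
    have h4 := Nat.mod_lt N (show 0 < 4 * K by omega)
    nlinarith
  set z : ℝ := (B : ℝ) ^ L with hz
  have hz1 : 1 ≤ z := one_le_pow₀ hB1
  set R : ℝ := 2 * (M ^ κ + N * Real.log B + 1) with hR
  have hR1 : 1 ≤ R := by
    have : 0 ≤ N * Real.log B := by positivity
    rw [hR]; linarith
  set u : ℝ := z / (16 * R) with hu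
  have hu0 : 0 < u := by positivity
  set D : Finset ℕ := (Icc 1 (B ^ L)).filter fun d : ℕ => u < (d : ℝ) with hD
  -- the size of the members
  have hsize : ∀ t ∈ F, Leh (num c g B t).toNat → (((num c g B t).toNat.primeFactors.card : ℕ) : ℝ) ≤ R := by
    intro t ht hl
    set n := (num c g B t).toNat with hn
    have hn1 : 1 < n := hl.1
    have hnum : ((n : ℕ) : ℤ) = num c g B t := by
      rw [hn]; apply Int.toNat_of_nonneg; omega
    have hnR : (n : ℝ) ≤ Real.exp (M ^ κ) * (2 * (B : ℝ) ^ N) := by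
      have h3 : (n : ℝ) = ((num c g B t : ℤ) : ℝ) := by rw [← hnum]; simp
      obtain ⟨S, hS⟩ : ∃ S : ℕ, S = ∑ j : Fin N, B ^ (j : ℕ) * t j := ⟨_, rfl⟩
      have h4 : num c g B t = c + g * S := by unfold QC.num; rw [hS]; push_cast; rfl
      have h5 : (S : ℝ) ≤ (B : ℝ) ^ N := by
        have := sum_lt B t (fun j => hA j _ (Fintype.mem_piFinset.1 ht j))
        rw [← hS] at this
        exact_mod_cast this.le
      have h6 : (1 : ℝ) ≤ (B : ℝ) ^ N := one_le_pow₀ hB1
      rw [h3, h4]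
      push_cast
      calc (c : ℝ) + g * S ≤ |(c : ℝ)| + |(g : ℝ)| * S := by
            apply add_le_add (le_abs_self _)
            exact mul_le_mul_of_nonneg_right (le_abs_self _) (Nat.cast_nonneg _)
        _ ≤ Real.exp (M ^ κ) + Real.exp (M ^ κ) * (B : ℝ) ^ N :=
            add_le_add hcN (mul_le_mul hgN h5 (Nat.cast_nonneg _) (Real.exp_pos _).le)
        _ ≤ _ := by nlinarith [Real.exp_pos (M ^ κ)]
    have hn0 : (0 : ℝ) < n := by exact_mod_cast (by omega : 0 < n)
    have hlog : Real.log n ≤ M ^ κ + N * Real.log B + 1 := by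
      have h3 := Real.log_le_log hn0 hnR
      rw [Real.log_mul (Real.exp_pos _).ne' (by positivity), Real.log_exp, Real.log_mul (by norm_num) (by positivity),
        Real.log_pow] at h3
      have := Real.log_two_lt_d9
      linarith
    have h3 := card_dvd n.primeFactors (fun p hp => Nat.prime_of_mem_primeFactors hp) (n : ℤ)
      (by exact_mod_cast (by omega : n ≠ 0)) (fun p hp => Int.natCast_dvd_natCast.2 (Nat.dvd_of_mem_primeFactors hp))
    rw [Int.cast_natCast, Nat.abs_cast] at h3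
    rw [hR]
    linarith
  -- the cover
  have hsub : (F.filter fun t => Leh (num c g B t).toNat) ⊆
      (F.filter fun t => Leh (num c g B t).toNat ∧ (num c g B t).toNat < B ^ L) ∪
        D.biUnion fun d => F.filter fun t => Leh (num c g B t).toNat ∧ d ∣ (num c g B t).toNat := by
    intro t ht
    obtain ⟨htF, hl⟩ := mem_filter.1 ht
    rw [mem_union]
    by_cases hlt : (num c g B t).toNat < B ^ L
    · left; exact mem_filter.2 ⟨htF, hl, hlt⟩
    right
    push Not at hlt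
    set n := (num c g B t).toNat with hn
    obtain ⟨k, hk2, hk, -⟩ := leh_k hl
    have hFam := fam_leh n k R (by omega) hR1
    have hst : StL n k R n (2 * n) := ⟨n, hl, by have := hl.1; omega, le_rfl, hk, hsize t htF hl, Or.inr ⟨rfl, rfl⟩⟩
    obtain ⟨d, hdn, hd1, hd2⟩ := dense hFam hst hz1 (by rw [hz]; exact_mod_cast hlt)
    rw [mem_biUnion]
    refine ⟨d, ?_, mem_filter.2 ⟨htF, hl, hdn⟩⟩
    rw [hD, mem_filter, mem_Icc]
    refine ⟨⟨Nat.pos_of_dvd_of_pos hdn (by have := hl.1; omega), ?_⟩, hd1⟩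
    rw [hz] at hd2
    exact_mod_cast hd2
  -- the small members
  have hsmall : ((F.filter fun t => Leh (num c g B t).toNat ∧ (num c g B t).toNat < B ^ L).card : ℝ) ≤ z := by
    have h3 : (F.filter fun t => Leh (num c g B t).toNat ∧ (num c g B t).toNat < B ^ L).card ≤ (range (B ^ L)).card := by
      apply card_le_card_of_injOn (fun t => (num c g B t).toNat)
      · intro t ht
        rw [mem_coe, mem_filter] at ht
        rw [mem_coe, mem_range]
        exact ht.2.2
      · intro t ht t' ht' htt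
        rw [mem_coe, mem_filter] at ht ht'
        have h4 : (((num c g B t).toNat : ℕ) : ℤ) = num c g B t := by
          apply Int.toNat_of_nonneg; have := ht.2.1.1; omega
        have h5 : (((num c g B t').toNat : ℕ) : ℤ) = num c g B t' := by
          apply Int.toNat_of_nonneg; have := ht'.2.1.1; omega
        simp only at htt
        rw [htt, h5] at h4
        exact num_inj hg hB A hA (mem_coe.2 ht.1) (mem_coe.2 ht'.1) h4.symm
    rw [card_range] at h3
    rw [hz]
    exact_mod_cast h3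
  -- the divisors
  have hlogN : ∀ d ∈ D, K * (Nat.log B (d * d) + 1) ≤ N := by
    intro d hd
    rw [hD, mem_filter, mem_Icc] at hd
    have h3 : d * d ≤ B ^ (2 * L) := by
      calc d * d ≤ B ^ L * B ^ L := Nat.mul_le_mul hd.1.2 hd.1.2
        _ = B ^ (2 * L) := by rw [← pow_add]; congr 1; ring
    have h4 : Nat.log B (d * d) ≤ 2 * L := by
      refine (Nat.log_mono_right h3).trans ?_
      rw [Nat.log_pow (by omega)]
    calc K * (Nat.log B (d * d) + 1) ≤ K * (2 * L + 1) := Nat.mul_le_mul_left _ (by omega)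
      _ ≤ N := by nlinarith
  have hdiv : ((D.biUnion fun d => F.filter fun t => Leh (num c g B t).toNat ∧ d ∣ (num c g B t).toNat).card : ℝ) ≤
      2 * M * (C₀ * u ^ (-(1 / 8) : ℝ)) := by
    calc ((D.biUnion fun d => F.filter fun t => Leh (num c g B t).toNat ∧ d ∣ (num c g B t).toNat).card : ℝ)
        ≤ ((∑ d ∈ D, (F.filter fun t => Leh (num c g B t).toNat ∧ d ∣ (num c g B t).toNat).card : ℕ) : ℝ) := by
          exact_mod_cast card_biUnion_le
      _ = ∑ d ∈ D, ((F.filter fun t => Leh (num c g B t).toNat ∧ d ∣ (num c g B t).toNat).card : ℝ) := by push_cast; rfl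
      _ ≤ ∑ d ∈ D, if Squarefree d then M * (2 * ((fr P d * fr P d.totient : ℕ) : ℝ) ^ (-(3 / 4) : ℝ)) else 0 := by
          refine sum_le_sum fun d hd => ?_
          have hd' := hd
          rw [hD, mem_filter, mem_Icc] at hd'
          exact div_count B hB A hA h2 K hK hx P
            (fun p _ hpB => by rw [hP, mem_union, mem_range]; right; omega) c g hg
            (fun p hp hpg => by rw [hP, mem_union]; left; exact hgP p hp hpg) d hd'.1.1 (hlogN d hd)
      _ = ∑ d ∈ D.filter (fun d => Squarefree d), M * (2 * ((fr P d * fr P d.totient : ℕ) : ℝ) ^ (-(3 / 4) : ℝ)) :=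
          (Finset.sum_filter _ _).symm
      _ = 2 * M * ∑ d ∈ D.filter (fun d => Squarefree d), ((fr P d * fr P d.totient : ℕ) : ℝ) ^ (-(3 / 4) : ℝ) := by
          rw [mul_sum]
          refine sum_congr rfl fun d _ => ?_
          ring
      _ ≤ _ := by
          apply mul_le_mul_of_nonneg_left _ (by positivity)
          apply hrank u _ hu0
          intro d hd
          rw [mem_filter, hD, mem_filter] at hd
          exact ⟨hd.2, hd.1.2⟩
  -- numbers
  have hzlow : M ^ (1 / (4 * K) : ℝ) ≤ B * z := by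
    calc M ^ (1 / (4 * K) : ℝ) ≤ ((B : ℝ) ^ N) ^ (1 / (4 * K) : ℝ) := Real.rpow_le_rpow hM0.le hMB (by positivity)
      _ = (B : ℝ) ^ ((N : ℝ) * (1 / (4 * K))) := by rw [← Real.rpow_natCast, ← Real.rpow_mul hB0.le]
      _ ≤ (B : ℝ) ^ ((L : ℝ) + 1) := by
          apply Real.rpow_le_rpow_of_exponent_le hB1
          rw [mul_one_div, div_le_iff₀ (by positivity)]
          have : (N : ℝ) ≤ (L + 1) * (4 * K) := by exact_mod_cast hL2.le
          exact this
      _ = B * z := by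
          rw [Real.rpow_add hB0, Real.rpow_one, Real.rpow_natCast, hz, mul_comm]
  have hRup : R ≤ 2 * (2 + Real.log B) * N * M ^ κ := by
    rw [hR]
    have h3 : M ^ κ ≤ N * M ^ κ := le_mul_of_one_le_left (by positivity) (by linarith)
    have h4 : N * Real.log B ≤ Real.log B * N * M ^ κ := by
      have : 0 ≤ Real.log B * N := by positivity
      nlinarith
    have h5 : 1 ≤ N * M ^ κ := by nlinarith
    nlinarith
  have hinv : u ^ (-(1 / 8) : ℝ) ≤ (32 * (2 + Real.log B) * B * N) * M ^ (κ / 8 - 1 / (32 * K)) := by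
    have h3 : u⁻¹ ≤ (32 * (2 + Real.log B) * B * N) * M ^ (κ - 1 / (4 * K)) := by
      rw [hu, inv_div, div_le_iff₀ (by positivity)]
      have h4 : M ^ (κ - 1 / (4 * K)) * (B * z) ≥ M ^ κ := by
        calc M ^ κ = M ^ (κ - 1 / (4 * K)) * M ^ (1 / (4 * K) : ℝ) := by
              rw [← Real.rpow_add hM0]; congr 1; ring
          _ ≤ M ^ (κ - 1 / (4 * K)) * (B * z) := mul_le_mul_of_nonneg_left hzlow (by positivity)
      calc 16 * R ≤ 16 * (2 * (2 + Real.log B) * N * M ^ κ) := by linarith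
        _ = 32 * (2 + Real.log B) * N * M ^ κ := by ring
        _ ≤ 32 * (2 + Real.log B) * N * (M ^ (κ - 1 / (4 * K)) * (B * z)) :=
            mul_le_mul_of_nonneg_left h4 (by positivity)
        _ = _ := by ring
    have h4 : u ^ (-(1 / 8) : ℝ) = (u⁻¹) ^ (1 / 8 : ℝ) := by
      rw [Real.rpow_neg hu0.le, Real.inv_rpow hu0.le]
    rw [h4]
    have h5 : 1 ≤ 32 * (2 + Real.log B) * B * N := by
      have h6 : (1 : ℝ) ≤ 32 * (2 + Real.log B) := by linarith
      have h7 : (1 : ℝ) ≤ B * N := by nlinarith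
      calc (1 : ℝ) = 1 * 1 := by norm_num
        _ ≤ (32 * (2 + Real.log B)) * (B * N) := mul_le_mul h6 h7 (by norm_num) (by linarith)
        _ = _ := by ring
    calc (u⁻¹) ^ (1 / 8 : ℝ) ≤ ((32 * (2 + Real.log B) * B * N) * M ^ (κ - 1 / (4 * K))) ^ (1 / 8 : ℝ) :=
          Real.rpow_le_rpow (by positivity) h3 (by norm_num)
      _ = (32 * (2 + Real.log B) * B * N) ^ (1 / 8 : ℝ) * M ^ (κ / 8 - 1 / (32 * K)) := by
          rw [Real.mul_rpow (by positivity) (by positivity), ← Real.rpow_mul hM0.le]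
          congr 2
          field_simp
          ring
      _ ≤ (32 * (2 + Real.log B) * B * N) * M ^ (κ / 8 - 1 / (32 * K)) := by
          apply mul_le_mul_of_nonneg_right _ (by positivity)
          calc (32 * (2 + Real.log B) * B * N) ^ (1 / 8 : ℝ) ≤ (32 * (2 + Real.log B) * B * N) ^ (1 : ℝ) :=
                Real.rpow_le_rpow_of_exponent_le h5 (by norm_num)
            _ = _ := Real.rpow_one _
  have hzup : z ≤ M ^ (1 / 4 : ℝ) := by
    calc z ≤ ((2 : ℝ) ^ B) ^ L := by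
          rw [hz]
          apply pow_le_pow_left₀ hB0.le
          exact_mod_cast (Nat.lt_two_pow_self (n := B)).le
      _ = (2 : ℝ) ^ (B * L) := by rw [← pow_mul]
      _ = ((2 : ℝ) ^ (4 * (B * L))) ^ (1 / 4 : ℝ) := by
          rw [← Real.rpow_natCast, ← Real.rpow_natCast, ← Real.rpow_mul (by norm_num)]
          congr 1
          push_cast
          ring
      _ ≤ ((2 : ℝ) ^ N) ^ (1 / 4 : ℝ) := by
          apply Real.rpow_le_rpow (by positivity) _ (by norm_num)
          apply pow_le_pow_right₀ (by norm_num)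
          calc 4 * (B * L) ≤ 4 * (K * L) := by gcongr
            _ = L * (4 * K) := by ring
            _ ≤ N := hL1
      _ ≤ M ^ (1 / 4 : ℝ) := Real.rpow_le_rpow (by positivity) hM2 (by norm_num)
  have hhalf1 : z ≤ M ^ (1 - κ) / 2 := by
    have h3 : (2 : ℝ) ≤ M ^ (1 / 2 : ℝ) := by
      calc (2 : ℝ) = (2 ^ 2 : ℝ) ^ (1 / 2 : ℝ) := by rw [← Real.sqrt_eq_rpow, Real.sqrt_sq (by norm_num)]
        _ ≤ ((2 : ℝ) ^ N) ^ (1 / 2 : ℝ) := by
            apply Real.rpow_le_rpow (by positivity) _ (by norm_num)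
            exact pow_le_pow_right₀ (by norm_num) (by omega)
        _ ≤ M ^ (1 / 2 : ℝ) := Real.rpow_le_rpow (by positivity) hM2 (by norm_num)
    have h4 : M ^ (1 / 4 : ℝ) * M ^ (1 / 2 : ℝ) ≤ M ^ (1 - κ) := by
      rw [← Real.rpow_add hM0]
      apply Real.rpow_le_rpow_of_exponent_le hM1
      linarith
    have h5 : 0 < M ^ (1 / 4 : ℝ) := by positivity
    nlinarith
  have hhalf2 : 2 * M * (C₀ * u ^ (-(1 / 8) : ℝ)) ≤ M ^ (1 - κ) / 2 := by
    have h3 : C₁ * N ≤ M ^ (1 / (128 * K) : ℝ) := by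
      refine hN2.trans ?_
      calc Real.exp ((Real.log 2 / (128 * K)) * N) = ((2 : ℝ) ^ N) ^ (1 / (128 * K) : ℝ) := by
            rw [← Real.rpow_natCast, ← Real.rpow_mul (by norm_num), Real.rpow_def_of_pos (by norm_num)]
            congr 1
            field_simp
        _ ≤ M ^ (1 / (128 * K) : ℝ) := Real.rpow_le_rpow (by positivity) hM2 (by positivity)
    have h4 : M * (M ^ (1 / (128 * K) : ℝ) * M ^ (κ / 8 - 1 / (32 * K))) ≤ M ^ (1 - κ) := by
      nth_rewrite 1 [← Real.rpow_one M]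
      rw [← Real.rpow_add hM0, ← Real.rpow_add hM0]
      apply Real.rpow_le_rpow_of_exponent_le hM1
      have h5 : κ = 1 / (64 * K) := hκ
      have h6 : (1 : ℝ) / (128 * K) = κ / 2 := by rw [h5]; field_simp; norm_num
      have h7 : (1 : ℝ) / (32 * K) = 2 * κ := by rw [h5]; field_simp; norm_num
      rw [h6, h7]
      linarith
    calc 2 * M * (C₀ * u ^ (-(1 / 8) : ℝ)) ≤ 2 * M * (C₀ * ((32 * (2 + Real.log B) * B * N) * M ^ (κ / 8 - 1 / (32 * K)))) := by
          apply mul_le_mul_of_nonneg_left _ (by positivity)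
          exact mul_le_mul_of_nonneg_left hinv (by linarith)
      _ = M * ((C₁ * N) * M ^ (κ / 8 - 1 / (32 * K))) / 2 := by rw [hC₁]; ring
      _ ≤ M * (M ^ (1 / (128 * K) : ℝ) * M ^ (κ / 8 - 1 / (32 * K))) / 2 := by
          apply div_le_div_of_nonneg_right _ (by norm_num)
          apply mul_le_mul_of_nonneg_left _ hM0.le
          exact mul_le_mul_of_nonneg_right h3 (by positivity)
      _ ≤ M ^ (1 - κ) / 2 := div_le_div_of_nonneg_right h4 (by norm_num)
  have hfin := (Nat.cast_le (α := ℝ)).2 ((card_le_card hsub).trans (card_union_le _ _))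
  push_cast at hfin
  linarith

end Pool.Agent.D0H92.LE
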